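import Pool.Agent.Helper38.IA.St

/-!
# Project IA, module F3
-/

set_option autoImplicit false

namespace Pool.Agent.Helper28.IA38

open Finset Pool.Agent.Helper93.IA Pool.Agent.Helper38.IA

private theorem rowLem {α β : Type} [Fintype α] [Fintype β] [DecidableEq α] [DecidableEq β]
    (A : Finset (α × β)) (w : α → β → ℝ) (t : ℝ) (hw : ∀ a b, 0 ≤ w a b ∧ w a b ≤ t) (a : α) :
    (m1 A univ a : ℝ) ≤ Fintype.card β - ∑ b, (if (a, b) ∈ A then 1 - w a b else 0) ∧
      Fintype.card β - ∑ b, (if (a, b) ∈ A then 1 - w a b else 0) ≤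
        m1 A univ a + t * Fintype.card β := by
  have ht : ∀ b : β, 0 ≤ t := fun b => (hw a b).1.trans (hw a b).2
  have h1 : ∑ b, (if (a, b) ∈ A then 1 - w a b else 0) =
      (d1 A a : ℝ) - ∑ b, (if (a, b) ∈ A then w a b else 0) := by
    rw [d1_eq_sum, ← Finset.sum_sub_distrib]
    refine Finset.sum_congr rfl fun b _ => ?_
    split_ifs <;> ring
  have h2 : (Fintype.card β : ℝ) = d1 A a + m1 A univ a := by
    exact_mod_cast (d1_add_m1 A a).symm
  have h3 : 0 ≤ ∑ b, (if (a, b) ∈ A then w a b else 0) := by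
    refine Finset.sum_nonneg fun b _ => ?_
    split_ifs
    · exact (hw a b).1
    · exact le_rfl
  have h4 : ∑ b, (if (a, b) ∈ A then w a b else 0) ≤ t * Fintype.card β := by
    calc ∑ b, (if (a, b) ∈ A then w a b else 0) ≤ ∑ _b : β, t := by
          refine Finset.sum_le_sum fun b _ => ?_
          split_ifs
          · exact (hw a b).2
          · exact ht b
      _ = t * Fintype.card β := by
          rw [Finset.sum_const, Finset.card_univ, nsmul_eq_mul, mul_comm]
  rw [h1]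
  constructor <;> linarith

theorem hF3 : StF3 := by
  intro hFZ hF2 hBLN
  refine ⟨1 / 10 ^ 7, by norm_num, by norm_num, ?_⟩
  intro α β γ _ _ _ _ _ _ n hn cα cβ cγ A B C κ b hκ0 hκ hb0 hb hN hI
  have hn0 : (0 : ℝ) < n := by exact_mod_cast hn
  have hκn : (κ + 1 / 10 ^ 7) * n ≤ 22 / 100 * n := by
    refine mul_le_mul_of_nonneg_right ?_ hn0.le
    have : (1 : ℝ) / 10 ^ 7 ≤ 1 / 1000 := by norm_num
    linarith
  have hN' : Near A B C univ univ univ univ univ univ (-1) (22 / 100 * n) := by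
    have key : ∀ {x lo hi lo' hi' : ℝ}, 0 ≤ x → lo' ≤ 0 → hi ≤ hi' → lo ≤ x ∧ x ≤ hi →
        lo' ≤ x ∧ x ≤ hi' := by
      intro x lo hi lo' hi' h1 h2 h3 h4
      exact ⟨h2.trans h1, h4.2.trans h3⟩
    exact ⟨⟨fun a ha => key (Nat.cast_nonneg _) (by norm_num) hκn (hN.1.1 a ha),
        fun a ha => key (Nat.cast_nonneg _) (by norm_num) hκn (hN.1.2 a ha)⟩,
      ⟨fun a ha => key (Nat.cast_nonneg _) (by norm_num) hκn (hN.2.1.1 a ha),
        fun a ha => key (Nat.cast_nonneg _) (by norm_num) hκn (hN.2.1.2 a ha)⟩,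
      ⟨fun a ha => key (Nat.cast_nonneg _) (by norm_num) hκn (hN.2.2.1 a ha),
        fun a ha => key (Nat.cast_nonneg _) (by norm_num) hκn (hN.2.2.2 a ha)⟩⟩
  obtain ⟨wA, wB, wC, bA, bB, bC, eA', eB', eC'⟩ :=
    hBLN α β γ n hn cα cβ cγ A B C b hN' hb0 (hb.trans (by norm_num)) hI
  have h40 : 40 * b ≤ 1 := by
    have : (1 : ℝ) / 10 ^ 7 ≤ 1 / 40 := by norm_num
    linarith
  set gA : α → β → ℝ := fun a b' => if (a, b') ∈ A then 1 - wA a b' else 0 with hgA
  set gB : β → γ → ℝ := fun b' c => if (b', c) ∈ B then 1 - wB b' c else 0 with hgB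
  set gC : γ → α → ℝ := fun c a => if (c, a) ∈ C then 1 - wC c a else 0 with hgC
  have iA : ∀ i j, 0 ≤ gA i j ∧ gA i j ≤ 1 := by
    intro i j
    simp only [hgA]
    have := bA i j
    split_ifs
    · constructor <;> linarith
    · constructor <;> norm_num
  have iB : ∀ i j, 0 ≤ gB i j ∧ gB i j ≤ 1 := by
    intro i j
    simp only [hgB]
    have := bB i j
    split_ifs
    · constructor <;> linarith
    · constructor <;> norm_num
  have iC : ∀ i j, 0 ≤ gC i j ∧ gC i j ≤ 1 := by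
    intro i j
    simp only [hgC]
    have := bC i j
    split_ifs
    · constructor <;> linarith
    · constructor <;> norm_num
  set k : ℝ := (κ + 1 / 10 ^ 7 + 40 * b) * n with hk
  have rA : ∀ a, (κ - 1 / 10 ^ 7) * n ≤ n - ∑ b', gA a b' ∧ n - ∑ b', gA a b' ≤ k := by
    intro a
    have h1 := rowLem A wA (40 * b) bA a
    rw [cβ] at h1
    have h2 := hN.1.1 a (mem_univ a)
    refine ⟨h2.1.trans h1.1, h1.2.trans ?_⟩
    rw [hk, add_mul (κ + 1 / 10 ^ 7)]
    linarith [h2.2]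
  have rB : ∀ a, n - ∑ b', gB a b' ≤ k := by
    intro a
    have h1 := rowLem B wB (40 * b) bB a
    rw [cγ] at h1
    have h2 := hN.2.1.1 a (mem_univ a)
    refine h1.2.trans ?_
    rw [hk, add_mul (κ + 1 / 10 ^ 7)]
    linarith [h2.2]
  have rC : ∀ a, n - ∑ b', gC a b' ≤ k := by
    intro a
    have h1 := rowLem C wC (40 * b) bC a
    rw [cα] at h1
    have h2 := hN.2.2.1 a (mem_univ a)
    refine h1.2.trans ?_
    rw [hk, add_mul (κ + 1 / 10 ^ 7)]
    linarith [h2.2]
  have hU1 : (κ - 1 / 10 ^ 7) * (n : ℝ) ^ 2 ≤ ∑ a, ((n : ℝ) - ∑ b', gA a b') := by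
    calc (κ - 1 / 10 ^ 7) * (n : ℝ) ^ 2 = ∑ _a : α, (κ - 1 / 10 ^ 7) * n := by
          rw [Finset.sum_const, Finset.card_univ, cα, nsmul_eq_mul]
          ring
      _ ≤ _ := Finset.sum_le_sum fun a _ => (rA a).1
  have hU2 : ∑ a, ((n : ℝ) - ∑ b', gA a b') ≤ k * n := by
    calc ∑ a, ((n : ℝ) - ∑ b', gA a b') ≤ ∑ _a : α, k :=
          Finset.sum_le_sum fun a _ => (rA a).2
      _ = k * n := by
          rw [Finset.sum_const, Finset.card_univ, cα, nsmul_eq_mul]
          ring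
  obtain ⟨h4k, hin⟩ := hF2 n κ (1 / 10 ^ 7) b _ k hn0 hκ0 hκ rfl hb0 hb hk hU1 hU2
  obtain ⟨x, x0, x1, sA, sB, sC⟩ := hFZ α β γ n k cα cβ cγ gA gB gC
    (fun a => (n : ℝ) - ∑ b', gA a b') (fun b' => (n : ℝ) - ∑ c, gB b' c)
    (fun c => (n : ℝ) - ∑ a, gC c a) iA iB iC (fun r => by ring) (fun r => by rw [← eA']; ring)
    (fun c => by ring) (fun c => by rw [← eB']; ring) (fun s => by ring)
    (fun s => by rw [← eC']; ring) (fun r => (rA r).2) rB rC hn h4k hin
  have hden : (n : ℝ) / 2 ≤ n - 2 * k := by linarith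
  have hden0 : 0 < (n : ℝ) - 2 * k := by linarith
  refine ⟨x, x0, ?_, ?_, ?_, ?_, ?_, ?_, ?_, ?_⟩
  · intro a b' c
    refine (x1 a b' c).trans ?_
    have h1 : gA a b' * gB b' c * gC c a ≤ 1 := by
      have h2 : gA a b' * gB b' c ≤ 1 := mul_le_one₀ (iA a b').2 (iB b' c).1 (iB b' c).2
      exact mul_le_one₀ h2 (iC c a).1 (iC c a).2
    have h3 : 3 / ((n : ℝ) - 2 * k) ≤ 6 / n := by
      rw [div_le_div_iff₀ hden0 hn0]
      linarith
    calc 3 / ((n : ℝ) - 2 * k) * (gA a b' * gB b' c * gC c a) ≤ 3 / ((n : ℝ) - 2 * k) * 1 :=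
          mul_le_mul_of_nonneg_left h1 (by positivity)
      _ ≤ 6 / n := by rw [mul_one]; exact h3
  · intro a b' c hx
    have h1 := x1 a b' c
    have h2 := x0 a b' c
    by_contra hcon
    apply hx
    have h3 : gA a b' * gB b' c * gC c a = 0 := by
      by_cases p1 : (a, b') ∈ A
      · by_cases p2 : (b', c) ∈ B
        · by_cases p3 : (c, a) ∈ C
          · exact absurd ⟨p1, p2, p3⟩ hcon
          · simp [hgC, p3]
        · simp [hgB, p2]
      · simp [hgA, p1]
    rw [h3, mul_zero] at h1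
    exact le_antisymm h1 h2
  · intro a b' h
    rw [sA]
    simp only [hgA, h, if_true]
    linarith [(bA a b').2]
  · intro a b'
    rw [sA]
    exact (iA a b').2
  · intro b' c h
    rw [sB]
    simp only [hgB, h, if_true]
    linarith [(bB b' c).2]
  · intro b' c
    rw [sB]
    exact (iB b' c).2
  · intro c a h
    rw [sC]
    simp only [hgC, h, if_true]
    linarith [(bC c a).2]
  · intro c a
    rw [sC]
    exact (iC c a).2

end Pool.Agent.Helper28.IA38
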